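import Pool.Agent.Helper32.AG.Goals

/-!
# PROJECT AG, packet LIN: the linear alternative
-/

set_option autoImplicit false

namespace Pool.Agent.Helper4.AG

open Pool.Agent.Helper32.AG

universe u

theorem lin (hMax : MaxStmt.{u}) (hDec : DecStmt.{u}) (hLev : LevStmt.{u}) (hOne : OneStmt.{u})
    (hTwb : TwbStmt.{u}) : LinStmt.{u} := by
  intro p _ U _ _ _ _ H hirr hsol hab hp
  haveI : Finite (U ≃ₗ[ZMod p] U) :=
    Finite.of_injective (fun f : U ≃ₗ[ZMod p] U => (f : U → U)) DFunLike.coe_injective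
  haveI : Finite H := inferInstance
  obtain ⟨A', hn, hc, hcent⟩ := hMax H hsol hab
  have hle : A'.map H.subtype ≤ H := by
    rintro _ ⟨a, _, rfl⟩
    exact a.2
  have hnorm : ∀ h ∈ H, ∀ a ∈ A'.map H.subtype, h * a * h⁻¹ ∈ A'.map H.subtype := by
    rintro h hh _ ⟨a, ha, rfl⟩
    refine ⟨(⟨h, hh⟩ : H) * a * (⟨h, hh⟩ : H)⁻¹, hn.conj_mem a ha ⟨h, hh⟩, ?_⟩
    simp
  have hcomm : ∀ a ∈ A'.map H.subtype, ∀ b ∈ A'.map H.subtype, a * b = b * a := by
    rintro _ ⟨a, ha, rfl⟩ _ ⟨b, hb, rfl⟩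
    have := congrArg (fun x : H => (x : U ≃ₗ[ZMod p] U)) (hc a ha b hb)
    simpa using this
  have hself : ∀ h ∈ H, (∀ a ∈ A'.map H.subtype, h * a = a * h) → h ∈ A'.map H.subtype := by
    intro h hh hha
    refine ⟨⟨h, hh⟩, hcent ?_, rfl⟩
    rw [Subgroup.mem_centralizer_iff]
    intro a ha
    apply Subtype.ext
    exact (hha a ⟨a, ha, rfl⟩).symm
  have hpA : ¬ p ∣ Nat.card (A'.map H.subtype) := fun h =>
    hp (h.trans (Subgroup.card_dvd_of_le hle))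
  obtain ⟨s, q, e, hs, hD⟩ := hDec p U H (A'.map H.subtype) hirr hle hnorm hcomm hpA
  rcases Nat.lt_or_ge s 3 with h3 | h3
  · obtain rfl | rfl : s = 1 ∨ s = 2 := by omega
    · exact Or.inr (Or.inl (hOne p U H _ q e hirr hle hnorm hcomm hself hp hD))
    · exact Or.inr (Or.inr (hTwb p U H _ q e hle hnorm hcomm hself hp hab hD))
  · exact Or.inl ⟨s, q, h3, hLev p U H _ s q e hs hD⟩

end Pool.Agent.Helper4.AG
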